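import Pool.Agent.helper1.SF.SpecA

set_option autoImplicit false

namespace SF

open MeasureTheory Set

/-- the integrand, as a function of `(y, σ)` -/
noncomputable def EXK_H (g : ℝ → ℝ) (l l' : ℝ) (m : ℤ) (y σ : ℝ) : ℝ :=
  deriv g σ * (1 / (y * √(BB l l' y) * √(σ * BB l l' y - 1 - (m : ℝ) ^ 2 * y ^ 2 / 25)))

theorem EXK_rpow (u : ℝ) : 1 / √u = u ^ (-(1 / 2) : ℝ) := by
  rcases lt_trichotomy u 0 with h | h | h
  · rw [Real.sqrt_eq_zero'.2 h.le, Real.rpow_def_of_neg h]
    have : Real.cos (-(1 / 2) * Real.pi) = 0 := by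
      have : (-(1 / 2) * Real.pi : ℝ) = -(Real.pi / 2) := by ring
      rw [this, Real.cos_neg, Real.cos_pi_div_two]
    rw [this]; simp
  · subst h
    rw [Real.sqrt_zero, Real.zero_rpow (by norm_num)]; simp
  · rw [Real.rpow_neg h.le, ← Real.sqrt_eq_rpow, one_div]

theorem EXK_int0 (a b : ℝ) : IntervalIntegrable (fun u : ℝ => 1 / √u) volume a b := by
  have : (fun u : ℝ => 1 / √u) = fun u : ℝ => u ^ (-(1 / 2) : ℝ) := by
    funext u; exact EXK_rpow u
  rw [this]
  exact intervalIntegral.intervalIntegrable_rpow' (by norm_num)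

theorem EXK_int1 (B c a b : ℝ) (hB : 0 < B) :
    IntervalIntegrable (fun σ : ℝ => 1 / √(σ * B - c)) volume a b := by
  have h0 := EXK_int0 (a * B - c) (b * B - c)
  have h1 := (h0.comp_sub_right c)
  have h2 := h1.comp_mul_right (c := B)
  have e1 : (a * B - c + c) / B = a := by field_simp; ring
  have e2 : (b * B - c + c) / B = b := by field_simp; ring
  rw [e1, e2] at h2
  exact h2

theorem EXK_int1_le (B c : ℝ) (hB : 0 < B) (hc : 0 ≤ c) :
    ∫ σ in (1 : ℝ)..2, 1 / √(σ * B - c) ≤ 2 * √(2 * B) / B := by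
  have e : ∫ σ in (1 : ℝ)..2, 1 / √(σ * B - c) = B⁻¹ • ∫ u in (1 * B - c)..(2 * B - c), 1 / √u := by
    have := intervalIntegral.integral_comp_mul_sub (a := 1) (b := 2) (fun u : ℝ => 1 / √u)
      (ne_of_gt hB) c
    have h3 : ∀ x : ℝ, x * B - c = B * x - c := fun x => by ring
    simp only [h3]
    rw [this]
  rw [e, smul_eq_mul]
  have h1 : ∫ u in (1 * B - c)..(2 * B - c), 1 / √u ≤ ∫ u in (0 : ℝ)..(2 * B), 1 / √u := by
    have hmono : ∀ s : Set ℝ, ∀ᵐ u ∂(volume.restrict s), 0 ≤ 1 / √u := by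
      intro s
      exact Filter.Eventually.of_forall fun u => by positivity
    -- split at min
    have hsub : ∫ u in (1 * B - c)..(2 * B - c), 1 / √u ≤ ∫ u in (min 0 (B - c))..(2 * B), 1 / √u := by
      apply intervalIntegral.integral_mono_interval
      · rw [one_mul]; exact min_le_right _ _
      · nlinarith
      · linarith
      · exact Filter.Eventually.of_forall fun u => by positivity
      · exact EXK_int0 _ _
    refine hsub.trans ?_
    rw [← intervalIntegral.integral_add_adjacent_intervals (EXK_int0 (min 0 (B - c)) 0)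
      (EXK_int0 0 (2 * B))]
    have hz : ∫ u in (min 0 (B - c))..(0 : ℝ), 1 / √u = 0 := by
      have : ∫ u in (min 0 (B - c))..(0 : ℝ), 1 / √u = ∫ u in (min 0 (B - c))..(0 : ℝ), (0 : ℝ) := by
        apply intervalIntegral.integral_congr
        intro u hu
        rw [uIcc_of_le (min_le_left _ _)] at hu
        simp only
        rw [Real.sqrt_eq_zero'.2 hu.2]; simp
      rw [this]; simp
    rw [hz, zero_add]
  have h2 : ∫ u in (0 : ℝ)..(2 * B), 1 / √u = 2 * √(2 * B) := by
    have : (fun u : ℝ => 1 / √u) = fun u : ℝ => u ^ (-(1 / 2) : ℝ) := by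
      funext u; exact EXK_rpow u
    rw [this, integral_rpow (Or.inl (by norm_num))]
    have e3 : (-(1 / 2) + 1 : ℝ) = 1 / 2 := by norm_num
    rw [e3, Real.zero_rpow (by norm_num), ← Real.sqrt_eq_rpow]
    ring
  rw [h2] at h1
  calc B⁻¹ * _ ≤ B⁻¹ * (2 * √(2 * B)) := by
        apply mul_le_mul_of_nonneg_left h1; positivity
    _ = 2 * √(2 * B) / B := by ring

theorem EXK_Bpos (l l' y : ℝ) (hl : 1 ≤ l) : 1 ≤ BB l l' y := by
  unfold BB
  nlinarith [sq_nonneg (y * l'), sq_nonneg y, mul_pow y l' 2]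

theorem EXK_meas (g : ℝ → ℝ) (hg : Pg g) (l l' : ℝ) (m : ℤ) :
    Measurable (Function.uncurry (EXK_H g l l' m)) := by
  unfold EXK_H Function.uncurry BB
  have h1 : Measurable (deriv g) := measurable_deriv g
  fun_prop

theorem EXK_bd (g : ℝ → ℝ) (hg : Pg g) : ∃ G : ℝ, 0 ≤ G ∧ ∀ σ ∈ Icc (1 : ℝ) 2, |deriv g σ| ≤ G := by
  have hc : Continuous (deriv g) := by
    have := hg.1.smooth
    exact (this.of_le (by exact_mod_cast le_top : (1 : WithTop ℕ∞) ≤ _)).continuous_deriv le_rfl
  obtain ⟨G, hG⟩ := (isCompact_Icc (a := (1 : ℝ)) (b := 2)).exists_bound_of_continuousOn hc.continuousOn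
  refine ⟨max G 0, le_max_right _ _, fun σ hσ => ?_⟩
  exact (Real.norm_eq_abs (deriv g σ) ▸ hG σ hσ).trans (le_max_left _ _)

theorem EXK_integrable (g : ℝ → ℝ) (hg : Pg g) (l l' y0 : ℝ) (m : ℤ) (hl : 1 ≤ l) (hy0 : 0 < y0) :
    Integrable (Function.uncurry (EXK_H g l l' m))
      ((volume.restrict (Ioc y0 1)).prod (volume.restrict (Ioc (1 : ℝ) 2))) := by
  obtain ⟨G, hG0, hG⟩ := EXK_bd g hg
  have hmeas := EXK_meas g hg l l' m
  have hae : AEStronglyMeasurable (Function.uncurry (EXK_H g l l' m))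
      ((volume.restrict (Ioc y0 1)).prod (volume.restrict (Ioc (1 : ℝ) 2))) :=
    hmeas.aestronglyMeasurable
  have hpt : ∀ y : ℝ, 0 < y → Integrable (fun σ => EXK_H g l l' m y σ) (volume.restrict (Ioc (1 : ℝ) 2)) ∧
      ∫ σ, ‖EXK_H g l l' m y σ‖ ∂(volume.restrict (Ioc (1 : ℝ) 2)) ≤
        G * (1 / (y * √(BB l l' y)) * (2 * √(2 * BB l l' y) / BB l l' y)) := by
    intro y hy
    have hB := EXK_Bpos l l' y hl
    have hB0 : 0 < BB l l' y := by linarith
    set B := BB l l' y with hBdef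
    have hi := EXK_int1 B (1 + (m : ℝ) ^ 2 * y ^ 2 / 25) 1 2 hB0
    rw [intervalIntegrable_iff_integrableOn_Ioc_of_le (by norm_num)] at hi
    have hi2 : Integrable (fun σ => G * (1 / (y * √B)) * (1 / √(σ * B - (1 + (m : ℝ) ^ 2 * y ^ 2 / 25))))
        (volume.restrict (Ioc (1 : ℝ) 2)) := hi.const_mul _
    have hle : ∀ᵐ σ ∂(volume.restrict (Ioc (1 : ℝ) 2)), ‖EXK_H g l l' m y σ‖ ≤
        G * (1 / (y * √B)) * (1 / √(σ * B - (1 + (m : ℝ) ^ 2 * y ^ 2 / 25))) := by
      refine (ae_restrict_iff' measurableSet_Ioc).2 (Filter.Eventually.of_forall fun σ hσ => ?_)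
      unfold EXK_H
      rw [norm_mul, Real.norm_eq_abs, Real.norm_eq_abs]
      have e1 : |1 / (y * √(BB l l' y) * √(σ * BB l l' y - 1 - (m : ℝ) ^ 2 * y ^ 2 / 25))| =
          (1 / (y * √B)) * (1 / √(σ * B - (1 + (m : ℝ) ^ 2 * y ^ 2 / 25))) := by
        rw [abs_of_nonneg (by positivity), ← hBdef, one_div_mul_one_div]
        congr 3; ring_nf
      rw [e1, mul_assoc]
      apply mul_le_mul_of_nonneg_right (hG σ ⟨hσ.1.le, hσ.2⟩)
      positivity
    have hm1 : AEStronglyMeasurable (fun σ => EXK_H g l l' m y σ) (volume.restrict (Ioc (1 : ℝ) 2)) := by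
      have : Measurable (fun σ => EXK_H g l l' m y σ) := hmeas.comp measurable_prodMk_left
      exact this.aestronglyMeasurable
    have hI : Integrable (fun σ => EXK_H g l l' m y σ) (volume.restrict (Ioc (1 : ℝ) 2)) :=
      hi2.mono' hm1 hle
    refine ⟨hI, ?_⟩
    calc ∫ σ, ‖EXK_H g l l' m y σ‖ ∂(volume.restrict (Ioc (1 : ℝ) 2)) ≤
        ∫ σ, G * (1 / (y * √B)) * (1 / √(σ * B - (1 + (m : ℝ) ^ 2 * y ^ 2 / 25)))
          ∂(volume.restrict (Ioc (1 : ℝ) 2)) := integral_mono_ae hI.norm hi2 hle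
      _ = G * (1 / (y * √B)) * ∫ σ in (1 : ℝ)..2, 1 / √(σ * B - (1 + (m : ℝ) ^ 2 * y ^ 2 / 25)) := by
          rw [integral_const_mul, intervalIntegral.integral_of_le (by norm_num)]
      _ ≤ G * (1 / (y * √B)) * (2 * √(2 * B) / B) := by
          apply mul_le_mul_of_nonneg_left (EXK_int1_le B _ hB0 (by positivity))
          positivity
      _ = G * (1 / (y * √B) * (2 * √(2 * B) / B)) := by ring
  rw [integrable_prod_iff hae]
  constructor
  · refine (ae_restrict_iff' measurableSet_Ioc).2 (Filter.Eventually.of_forall fun y hy => ?_)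
    exact (hpt y (hy0.trans hy.1)).1
  · have hm2 : AEStronglyMeasurable
        (fun y => ∫ σ, ‖Function.uncurry (EXK_H g l l' m) (y, σ)‖ ∂(volume.restrict (Ioc (1 : ℝ) 2)))
        (volume.restrict (Ioc y0 1)) := hae.norm.integral_prod_right'
    have hfin : IsFiniteMeasure (volume.restrict (Ioc y0 (1 : ℝ))) := by
      constructor
      rw [Measure.restrict_apply_univ]; exact measure_Ioc_lt_top
    refine Integrable.of_bound hm2 (G * (1 / y0 * (2 * √2))) ?_
    refine (ae_restrict_iff' measurableSet_Ioc).2 (Filter.Eventually.of_forall fun y hy => ?_)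
    have hy' : 0 < y := hy0.trans hy.1
    have h := (hpt y hy').2
    rw [Real.norm_eq_abs, abs_of_nonneg (integral_nonneg fun _ => norm_nonneg _)]
    refine h.trans ?_
    apply mul_le_mul_of_nonneg_left _ hG0
    have hB := EXK_Bpos l l' y hl
    have hB0 : 0 < BB l l' y := by linarith
    have hsB : 1 ≤ √(BB l l' y) := Real.one_le_sqrt.2 hB
    have hsB0 : 0 < √(BB l l' y) := by linarith
    have e : 1 / (y * √(BB l l' y)) * (2 * √(2 * BB l l' y) / BB l l' y) =
        1 / y * (2 * √2) * (1 / BB l l' y) := by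
      rw [Real.sqrt_mul (by norm_num)]
      field_simp
    rw [e]
    calc 1 / y * (2 * √2) * (1 / BB l l' y) ≤ 1 / y * (2 * √2) * 1 := by
          apply mul_le_mul_of_nonneg_left _ (by positivity)
          rw [div_le_one hB0]; exact hB
      _ ≤ 1 / y0 * (2 * √2) := by
          rw [mul_one]
          apply mul_le_mul_of_nonneg_right _ (by positivity)
          exact one_div_le_one_div_of_le hy0 hy.1.le

theorem EXK_TT (g : ℝ → ℝ) (l l' : ℝ) (m : ℤ) (y : ℝ) :
    TT g l l' y m = 1 / Real.pi * ∫ σ, EXK_H g l l' m y σ ∂(volume.restrict (Ioc (1 : ℝ) 2)) := by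
  unfold TT EXK_H
  rw [intervalIntegral.integral_of_le (by norm_num), ← integral_const_mul, ← integral_const_mul]
  congr 1
  funext σ
  simp only [one_div, mul_inv, div_eq_mul_inv]
  ring

theorem EXK_Km (g : ℝ → ℝ) (l l' y0 : ℝ) (m : ℤ) (σ : ℝ) (h : y0 ≤ 1) :
    deriv g σ * Km σ y0 l l' m = ∫ y, EXK_H g l l' m y σ ∂(volume.restrict (Ioc y0 1)) := by
  unfold Km EXK_H
  rw [intervalIntegral.integral_of_le h, ← integral_const_mul]

theorem EXK : EXK_stmt := by
  intro g hg l l' y0 N hl hl' hy0 hy01 hN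
  have ha : ∀ m : ℤ, IntervalIntegrable (fun y => TT g l l' y m) volume y0 1 := by
    intro m
    rw [intervalIntegrable_iff_integrableOn_Ioc_of_le hy01]
    have h := (EXK_integrable g hg l l' y0 m hl hy0).integral_prod_left
    have h2 := h.const_mul (1 / Real.pi)
    refine h2.congr (Filter.Eventually.of_forall fun y => ?_)
    simp only
    rw [EXK_TT]
    rfl
  have hb : ∀ σ : ℝ, σ ≤ 2 → ∀ m : ℤ, (N : ℤ) < |m| → Km σ y0 l l' m = 0 := by
    intro σ hσ m hm
    unfold Km
    have : ∫ y in y0..1, 1 / (y * √(BB l l' y) * √(σ * BB l l' y - 1 - (m : ℝ) ^ 2 * y ^ 2 / 25)) =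
        ∫ y in y0..1, (0 : ℝ) := by
      apply intervalIntegral.integral_congr
      intro y hy
      rw [uIcc_of_le hy01] at hy
      have hy' : 0 < y := hy0.trans_le hy.1
      have hneg : σ * BB l l' y - 1 - (m : ℝ) ^ 2 * y ^ 2 / 25 ≤ 0 := by
        have hB := EXK_Bpos l l' y hl
        have hB2 : BB l l' y ≤ (l + l') ^ 2 := by
          unfold BB
          have : y ^ 2 ≤ 1 := by nlinarith [hy.2]
          nlinarith [mul_le_mul_of_nonneg_right this (sq_nonneg l'), mul_nonneg (by linarith : (0:ℝ) ≤ l) (by linarith : (0:ℝ) ≤ l')]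
        have h1 : σ * BB l l' y ≤ 2 * BB l l' y := mul_le_mul_of_nonneg_right hσ (by linarith)
        have hmR : (N : ℝ) ≤ |(m : ℝ)| := by
          have : ((N : ℤ) : ℝ) < ((|m| : ℤ) : ℝ) := by exact_mod_cast hm
          rw [Int.cast_abs] at this
          have := this.le
          simpa using this
        have h2 : 8 * (l + l') ≤ |(m : ℝ)| * y := by
          calc 8 * (l + l') ≤ N * y0 := hN
            _ ≤ |(m : ℝ)| * y := mul_le_mul hmR hy.1 hy0.le (abs_nonneg _)
        have h3 : (8 * (l + l')) ^ 2 ≤ (|(m : ℝ)| * y) ^ 2 :=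
          pow_le_pow_left₀ (by linarith) h2 2
        have h4 : (|(m : ℝ)| * y) ^ 2 = (m : ℝ) ^ 2 * y ^ 2 := by
          rw [mul_pow, sq_abs]
        rw [h4] at h3
        nlinarith [sq_nonneg (l + l')]
      simp only
      rw [Real.sqrt_eq_zero'.2 hneg]
      simp
    rw [this]
    simp
  have hc : ∀ m : ℤ, IntervalIntegrable (fun σ => deriv g σ * Km σ y0 l l' m) volume 1 2 := by
    intro m
    rw [intervalIntegrable_iff_integrableOn_Ioc_of_le (by norm_num)]
    have h := (EXK_integrable g hg l l' y0 m hl hy0).integral_prod_right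
    refine h.congr (Filter.Eventually.of_forall fun σ => ?_)
    simp only
    rw [EXK_Km g l l' y0 m σ hy01]
    rfl
  refine ⟨ha, hb, hc, ?_⟩
  have hswap : ∀ m : ℤ, ∫ y in y0..1, TT g l l' y m =
      1 / Real.pi * ∫ σ in (1 : ℝ)..2, deriv g σ * Km σ y0 l l' m := by
    intro m
    rw [intervalIntegral.integral_of_le hy01, intervalIntegral.integral_of_le (by norm_num)]
    have e1 : ∫ y in Ioc y0 1, TT g l l' y m =
        ∫ y in Ioc y0 1, 1 / Real.pi * ∫ σ in Ioc (1 : ℝ) 2, EXK_H g l l' m y σ := by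
      congr 1; funext y; exact EXK_TT g l l' m y
    have e2 : ∫ σ in Ioc (1 : ℝ) 2, deriv g σ * Km σ y0 l l' m =
        ∫ σ in Ioc (1 : ℝ) 2, ∫ y in Ioc y0 1, EXK_H g l l' m y σ := by
      congr 1; funext σ; exact EXK_Km g l l' y0 m σ hy01
    rw [e1, e2, integral_const_mul]
    congr 1
    exact integral_integral_swap (EXK_integrable g hg l l' y0 m hl hy0)
  rw [intervalIntegral.integral_finset_sum (fun m _ => (ha m).const_mul _)]
  have e3 : ∀ m : ℤ, ∫ y in y0..1, chi m * TT g l l' y m =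
      1 / Real.pi * ∫ σ in (1 : ℝ)..2, chi m * (deriv g σ * Km σ y0 l l' m) := by
    intro m
    rw [intervalIntegral.integral_const_mul, hswap, intervalIntegral.integral_const_mul]
    ring
  simp only [e3]
  rw [← Finset.mul_sum, ← intervalIntegral.integral_finset_sum (fun m _ => (hc m).const_mul _)]
  unfold Ex
  rw [← mul_assoc]
  congr 1
  · rw [one_div_mul_one_div]
  · apply intervalIntegral.integral_congr
    intro σ hσ
    rw [uIcc_of_le (by norm_num)] at hσ
    simp only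
    rw [tsum_eq_sum (s := Finset.Icc (-(N : ℤ)) N)]
    · rw [Finset.mul_sum]
      apply Finset.sum_congr rfl
      intro m _
      ring
    · intro m hm
      rw [Finset.mem_Icc, ← abs_le, not_le] at hm
      rw [hb σ hσ.2 m hm, mul_zero]

end SF
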