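import Pool.Agent.helper33.SF.Spec

set_option autoImplicit false

open Finset

namespace Pool.Agent.SF

theorem PIG_notSquare (E : ℕ) (hsq : Squarefree E) (h2 : 2 ≤ E) : ¬ IsSquare E := by
  rintro ⟨r, hr⟩
  have h1 : IsUnit r := hsq r ⟨1, by rw [mul_one]; exact hr⟩
  rw [Nat.isUnit_iff] at h1
  rw [h1] at hr
  omega

theorem PIG_ne_zero (E x y : ℕ) (hns : ¬ IsSquare E) (hy : 1 ≤ y) :
    (x : ℤ) ^ 2 - (E : ℤ) * (y : ℤ) ^ 2 ≠ 0 := by
  intro h
  have h1 : x ^ 2 = E * y ^ 2 := by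
    have h2 : (x : ℤ) ^ 2 = (E : ℤ) * (y : ℤ) ^ 2 := by linarith
    exact_mod_cast h2
  have h2 : y ^ 2 ∣ x ^ 2 := ⟨E, by rw [h1]; ring⟩
  have h3 : y ∣ x := (Nat.pow_dvd_pow_iff (by norm_num)).mp h2
  obtain ⟨z, hz⟩ := h3
  apply hns
  refine ⟨z, ?_⟩
  have h4 : y ^ 2 * E = y ^ 2 * (z * z) := by
    rw [mul_comm, ← h1, hz]; ring
  exact Nat.eq_of_mul_eq_mul_left (by positivity) h4

/-- the class of `x / y` modulo `t = x ^ 2 - E y ^ 2` -/
theorem PIG_class (E x y : ℕ) (t : ℤ) (ht : t = (x : ℤ) ^ 2 - (E : ℤ) * (y : ℤ) ^ 2)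
    (ht0 : t ≠ 0) (hc : Nat.Coprime x y) :
    ∃ P : ℕ, P < t.natAbs ∧ t ∣ (P : ℤ) * y - x ∧ (t.natAbs : ℤ) ∣ (P : ℤ) ^ 2 - (E : ℤ) := by
  have h1 : IsCoprime (y : ℤ) (x : ℤ) := (Nat.isCoprime_iff_coprime.mpr hc).symm
  have h2 : IsCoprime (y : ℤ) t := by
    have h3 : IsCoprime (y : ℤ) ((x : ℤ) ^ 2) := h1.pow_right
    have h4 : t = (x : ℤ) ^ 2 + (y : ℤ) * (-(E : ℤ) * y) := by rw [ht]; ring
    rw [h4]
    exact h3.add_mul_left_right _
  obtain ⟨a, b, hab⟩ := h2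
  have hP0 : 0 ≤ ((x : ℤ) * a) % t := Int.emod_nonneg _ ht0
  have hP1 : ((x : ℤ) * a) % t < |t| := Int.emod_lt_abs _ ht0
  have hcast : ((((x : ℤ) * a) % t).toNat : ℤ) = ((x : ℤ) * a) % t := Int.toNat_of_nonneg hP0
  have hmod : t ∣ ((x : ℤ) * a) - ((x : ℤ) * a) % t := Int.dvd_self_sub_emod
  have hd : t ∣ (((((x : ℤ) * a) % t).toNat : ℕ) : ℤ) * y - x := by
    rw [hcast]
    obtain ⟨c, hc'⟩ := hmod
    refine ⟨- c * y - x * b, ?_⟩
    have h5 : ((x : ℤ) * a) % t = (x : ℤ) * a - t * c := by linarith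
    rw [h5]
    linear_combination (x : ℤ) * hab
  refine ⟨(((x : ℤ) * a) % t).toNat, ?_, hd, ?_⟩
  · have h6 : ((((x : ℤ) * a) % t).toNat : ℤ) < (t.natAbs : ℤ) := by
      rw [hcast, Int.natCast_natAbs]; exact hP1
    exact_mod_cast h6
  · rw [Int.natAbs_dvd]
    set P : ℤ := ((((x : ℤ) * a) % t).toNat : ℤ) with hP
    have h7 : t ∣ (y : ℤ) ^ 2 * (P ^ 2 - E) := by
      obtain ⟨c, hc'⟩ := hd
      refine ⟨c * (P * y + x) + 1, ?_⟩
      linear_combination (P * y + x) * hc' - ht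
    have h8 : IsCoprime t ((y : ℤ) ^ 2) := by
      have h9 : IsCoprime (y : ℤ) t := ⟨a, b, hab⟩
      exact (h9.pow_left).symm
    exact h8.dvd_of_dvd_mul_left h7

theorem PIG (hCHN : CHN_stmt) (hUNT : UNT_stmt) (hRHO : RHO_stmt) : PIG_stmt := by
  intro E hodd hsq h2
  have hns := PIG_notSquare E hsq h2
  obtain ⟨x, y, h⟩ := hCHN E (by omega) hns
  set s : ℝ := √(E : ℝ) with hs
  have hs1 : 1 ≤ s := by
    rw [hs]
    rw [Real.one_le_sqrt]
    exact_mod_cast (by omega : 1 ≤ E)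
  set t : ℕ → ℤ := fun i => (x i : ℤ) ^ 2 - (E : ℤ) * (y i : ℤ) ^ 2 with ht
  have ht0 : ∀ i, t i ≠ 0 := fun i => PIG_ne_zero E (x i) (y i) hns (h i).1
  have htT : ∀ i, (t i).natAbs ≤ ⌊2 * s⌋₊ := by
    intro i
    apply Nat.le_floor
    have h1 := (h i).2.2.2.2.1
    have h3 : (((t i).natAbs : ℕ) : ℝ) = |(x i : ℝ) ^ 2 - E * (y i : ℝ) ^ 2| := by
      rw [Nat.cast_natAbs, Int.cast_abs]
      simp [ht]
    rw [h3]
    exact h1
  have hex : ∀ i, ∃ P : ℕ, P < (t i).natAbs ∧ t i ∣ (P : ℤ) * (y i) - (x i) ∧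
      ((t i).natAbs : ℤ) ∣ (P : ℤ) ^ 2 - (E : ℤ) :=
    fun i => PIG_class E (x i) (y i) (t i) rfl (ht0 i) (h i).2.1
  choose P hP1 hP2 hP3 using hex
  set T : ℕ := ⌊2 * s⌋₊ with hT
  set R : ℕ := 4 * (∑ n ∈ Icc 1 T, n.divisors.card) with hR
  set S : Finset (Σ _ : ℕ, Bool × ℕ) := (Icc 1 T).sigma (fun n =>
    (Finset.univ : Finset Bool) ×ˢ
      ((range n).filter (fun P : ℕ => (n : ℤ) ∣ (P : ℤ) ^ 2 - (E : ℤ)))) with hS
  have hScard : S.card ≤ R := by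
    rw [hS, Finset.card_sigma, hR, Finset.mul_sum]
    apply Finset.sum_le_sum
    intro n hn
    rw [Finset.card_product, Finset.card_univ, Fintype.card_bool]
    have h1 := hRHO E n hodd hsq (Finset.mem_Icc.mp hn).1
    unfold rho at h1
    omega
  have hmaps : ∀ i ∈ range (R + 1),
      (⟨(t i).natAbs, (decide (0 < t i), P i)⟩ : Σ _ : ℕ, Bool × ℕ) ∈ S := by
    intro i _
    rw [hS, Finset.mem_sigma]
    refine ⟨Finset.mem_Icc.mpr ⟨?_, htT i⟩, ?_⟩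
    · exact Int.natAbs_pos.mpr (ht0 i)
    · rw [Finset.mem_product]
      refine ⟨Finset.mem_univ _, ?_⟩
      rw [Finset.mem_filter]
      exact ⟨Finset.mem_range.mpr (hP1 i), hP3 i⟩
  obtain ⟨i, hi, j, hj, hij, heq⟩ := Finset.exists_ne_map_eq_of_card_lt_of_maps_to
    (s := range (R + 1)) (t := S)
    (f := fun i => (⟨(t i).natAbs, (decide (0 < t i), P i)⟩ : Σ _ : ℕ, Bool × ℕ))
    (by rw [Finset.card_range]; omega) hmaps
  have heq' : (t i).natAbs = (t j).natAbs ∧ (decide (0 < t i), P i) = (decide (0 < t j), P j) := by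
    simpa using heq
  obtain ⟨he1, he2⟩ := heq'
  have he3 : decide (0 < t i) = decide (0 < t j) := congrArg Prod.fst he2
  have he4 : P i = P j := congrArg Prod.snd he2
  have hteq : t i = t j := by
    have h3 : (0 < t i) ↔ (0 < t j) := by simpa using he3
    have h4 := ht0 i
    have h5 := ht0 j
    by_cases h6 : 0 < t i
    · have h7 := h3.mp h6
      omega
    · have h7 : ¬ 0 < t j := fun h8 => h6 (h3.mpr h8)
      omega
  have hanti : StrictAnti (fun i => |(x i : ℝ) - y i * s|) :=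
    strictAnti_nat_of_succ_lt (fun i => (h i).2.2.2.2.2)
  have hpair : ¬ (x i = x j ∧ y i = y j) := by
    rintro ⟨hx, hy⟩
    apply hij
    apply hanti.injective
    simp only [hx, hy]
  have hdvd : t i ∣ (x i : ℤ) * y j - x j * y i := by
    obtain ⟨c, hc⟩ := hP2 i
    obtain ⟨d, hd⟩ := hP2 j
    rw [← hteq] at hd
    rw [← he4] at hd
    refine ⟨- c * y j + d * y i, ?_⟩
    linear_combination (-(y j : ℤ)) * hc + (y i : ℤ) * hd
  obtain ⟨u, v, huv, hu1, hu2⟩ := hUNT E (x i) (y i) (x j) (y j) (t i) (by omega) (ht0 i)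
    (h i).1 (h j).1 (h i).2.1 (h j).2.1 rfl hteq.symm hdvd hpair
  refine ⟨u, v, huv, hu1, le_trans hu2 ?_⟩
  have hbound : ∀ k ∈ range (R + 1), (x k : ℝ) + y k * s ≤ (2 * s + 2) ^ (R + 1) := by
    intro k hk
    have hk1 : k ≤ R := by have := Finset.mem_range.mp hk; omega
    have h3 := (h k).2.2.2.1
    have h4 := (h k).2.2.1
    have h5 : (1 : ℝ) ≤ y k := by exact_mod_cast (h k).1
    have h6 : (2 * s + 2) ^ k ≤ (2 * s + 2) ^ R := pow_le_pow_right₀ (by linarith) hk1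
    have h7 : (x k : ℝ) + y k * s ≤ (y k) * (2 * s + 2) := by nlinarith
    calc (x k : ℝ) + y k * s ≤ (y k) * (2 * s + 2) := h7
      _ ≤ (2 * s + 2) ^ R * (2 * s + 2) := by
        apply mul_le_mul_of_nonneg_right (le_trans h4 h6) (by linarith)
      _ = (2 * s + 2) ^ (R + 1) := by rw [pow_succ]
  exact max_le (hbound i hi) (hbound j hj)

end Pool.Agent.SF
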